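import Pool.Agent.Helper80.Hist.Defs

/-!
A finite 1,3-tree is a planted binary tree.
-/

namespace Pool.Agent.Helper80.Hist

open Finset

section
variable {V : Type*} {T : SimpleGraph V}

lemma next_exists (hT : T.IsTree) {v w : V} (h : v ≠ w) :
    ∃ a, T.Adj v a ∧ T.dist w v = T.dist w a + 1 := by
  obtain ⟨p, hp⟩ := hT.connected.exists_walk_length_eq_dist v w
  cases p with
  | nil => exact absurd rfl h
  | @cons _ a _ hva q =>
    refine ⟨a, hva, ?_⟩
    rw [SimpleGraph.Walk.length_cons] at hp
    have h1 := SimpleGraph.dist_le q
    have h2 := hT.dist_eq_dist_add_one_of_adj w hva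
    rw [SimpleGraph.dist_comm (u := w) (v := v), SimpleGraph.dist_comm (u := w) (v := a)] at *
    omega

lemma next_unique (hT : T.IsTree) {v w a b : V} (ha : T.Adj v a) (hb : T.Adj v b)
    (hwa : T.dist w v = T.dist w a + 1) (hwb : T.dist w v = T.dist w b + 1) : a = b := by
  obtain ⟨p, hp⟩ := hT.connected.exists_walk_length_eq_dist a w
  obtain ⟨q, hq⟩ := hT.connected.exists_walk_length_eq_dist b w
  have e1 : (SimpleGraph.Walk.cons ha p).length = T.dist v w := by
    rw [SimpleGraph.Walk.length_cons, hp, SimpleGraph.dist_comm (u := v), hwa,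
      SimpleGraph.dist_comm]
  have e2 : (SimpleGraph.Walk.cons hb q).length = T.dist v w := by
    rw [SimpleGraph.Walk.length_cons, hq, SimpleGraph.dist_comm (u := v), hwb,
      SimpleGraph.dist_comm]
  have h1 := SimpleGraph.Walk.isPath_of_length_eq_dist _ e1
  have h2 := SimpleGraph.Walk.isPath_of_length_eq_dist _ e2
  have h3 := (hT.isAcyclic.subsingleton_path _ _).elim ⟨_, h1⟩ ⟨_, h2⟩
  have h4 := Subtype.ext_iff.mp h3
  simp only at h4
  exact (SimpleGraph.Walk.cons.inj h4).1

/-- the vertices beyond the edge `uv` -/
def br (T : SimpleGraph V) (u v : V) : Set V := {w | T.dist w u = T.dist w v + 1}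

lemma mem_br {u v w : V} : w ∈ br T u v ↔ T.dist w u = T.dist w v + 1 := Iff.rfl

lemma br_sub (hT : T.IsTree) {u v a : V} (huv : T.Adj u v) (hva : T.Adj v a) (hne : a ≠ u)
    {w : V} (hw : w ∈ br T v a) : w ∈ br T u v := by
  rw [mem_br] at *
  rcases hT.dist_eq_dist_add_one_of_adj w huv with h | h
  · exact h
  · exact absurd (next_unique hT hva huv.symm hw h) hne

lemma br_self {u v : V} (huv : T.Adj u v) : v ∈ br T u v := by
  rw [mem_br, SimpleGraph.dist_self, SimpleGraph.dist_comm,
    SimpleGraph.dist_eq_one_iff_adj.mpr huv]

lemma br_not (v a : V) : v ∉ br T v a := by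
  rw [mem_br, SimpleGraph.dist_self]; omega

lemma br_disj (hT : T.IsTree) {v a b : V} (hva : T.Adj v a) (hvb : T.Adj v b) (hab : a ≠ b)
    {w : V} (h1 : w ∈ br T v a) (h2 : w ∈ br T v b) : False :=
  hab (next_unique hT hva hvb h1 h2)

/-- the binary tree beyond an edge -/
lemma exists_LT {V : Type} [Fintype V] {T : SimpleGraph V} (hT : IsOneThreeTree T) (k : ℕ) :
    ∀ u v : V, T.Adj u v → (br T u v).ncard ≤ k → ∃ s : LT V, s.lab = v ∧ s.labels.Nodup ∧
      (∀ w, w ∈ s.labels ↔ w ∈ br T u v) ∧ (∀ e ∈ s.tedges u, T.Adj e.1 e.2) ∧
      (∀ x ∈ s.labels, ∀ y, T.Adj x y → (x, y) ∈ s.tedges u ∨ (y, x) ∈ s.tedges u) := by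
  obtain ⟨hTr, h13⟩ := hT
  induction k with
  | zero =>
    intro u v huv hk
    have h1 : (br T u v) = ∅ := by
      rw [← Set.ncard_eq_zero (Set.toFinite _)]; omega
    have := br_self huv
    rw [h1] at this
    exact this.elim
  | succ k ih =>
    intro u v huv hk
    rcases h13 v with h | h
    · -- v is a leaf
      obtain ⟨u', hu'⟩ := Set.ncard_eq_one.mp h
      have hnb : ∀ y, T.Adj v y → y = u := by
        intro y hy
        have h1 : y ∈ T.neighborSet v := hy
        have h2 : u ∈ T.neighborSet v := huv.symm
        rw [hu'] at h1 h2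
        rw [Set.mem_singleton_iff.mp h1, Set.mem_singleton_iff.mp h2]
      refine ⟨.leaf v, rfl, by simp [LT.labels], ?_, ?_, ?_⟩
      · intro w
        simp only [LT.labels, List.mem_singleton]
        constructor
        · rintro rfl; exact br_self huv
        · intro hw
          by_contra hne
          obtain ⟨a, ha, hwa⟩ := next_exists hTr (v := v) (w := w) (Ne.symm hne)
          rw [hnb a ha] at hwa
          rw [mem_br] at hw
          omega
      · intro e he
        simp only [LT.tedges, List.mem_singleton] at he
        subst he; exact huv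
      · intro x hx y hy
        simp only [LT.labels, List.mem_singleton] at hx
        subst hx
        rw [hnb y hy]
        right; simp [LT.tedges]
    · -- v has two children
      obtain ⟨a, b, hab, hau, hbu, hva, hvb, hnb⟩ : ∃ a b : V, a ≠ b ∧ a ≠ u ∧ b ≠ u ∧ T.Adj v a ∧
          T.Adj v b ∧ ∀ y, T.Adj v y → y = u ∨ y = a ∨ y = b := by
        obtain ⟨x, y, z, hxy, hxz, hyz, he⟩ := Set.ncard_eq_three.mp h
        have hmem : ∀ w, T.Adj v w ↔ (w = x ∨ w = y ∨ w = z) := by
          intro w
          rw [← SimpleGraph.mem_neighborSet, he]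
          simp
        have hu := (hmem u).mp huv.symm
        have hx : T.Adj v x := (hmem x).mpr (by simp)
        have hy : T.Adj v y := (hmem y).mpr (by simp)
        have hz : T.Adj v z := (hmem z).mpr (by simp)
        rcases hu with rfl | rfl | rfl
        · exact ⟨y, z, hyz, hxy.symm, hxz.symm, hy, hz, fun w hw => (hmem w).mp hw⟩
        · refine ⟨x, z, hxz, hxy, hyz.symm, hx, hz, fun w hw => ?_⟩
          have := (hmem w).mp hw
          tauto
        · refine ⟨x, y, hxy, hxz, hyz, hx, hy, fun w hw => ?_⟩
          have := (hmem w).mp hw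
          tauto
      have hlt : ∀ c, T.Adj v c → c ≠ u → (br T v c).ncard ≤ k := by
        intro c hc hcu
        have : (br T v c).ncard < (br T u v).ncard := by
          refine Set.ncard_lt_ncard ⟨fun w hw => br_sub hTr huv hc hcu hw, fun hsub => ?_⟩
            (Set.toFinite _)
          exact br_not v c (hsub (br_self huv))
        omega
      obtain ⟨sa, la, na, ma, ea, fa⟩ := ih v a hva (hlt a hva hau)
      obtain ⟨sb, lb, nb, mb, eb, fb⟩ := ih v b hvb (hlt b hvb hbu)
      refine ⟨.node v false false sa sb, rfl, ?_, ?_, ?_, ?_⟩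
      · rw [labels_node, List.nodup_cons, List.nodup_append]
        refine ⟨?_, na, nb, ?_⟩
        · rw [List.mem_append, ma, mb]
          rintro (h | h)
          · exact br_not _ _ h
          · exact br_not _ _ h
        · intro x hx y hy hxy
          subst hxy
          exact br_disj hTr hva hvb hab ((ma x).mp hx) ((mb x).mp hy)
      · intro w
        rw [labels_node, List.mem_cons, List.mem_append, ma, mb]
        constructor
        · rintro (rfl | h | h)
          · exact br_self huv
          · exact br_sub hTr huv hva hau h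
          · exact br_sub hTr huv hvb hbu h
        · intro hw
          by_cases hwv : w = v
          · exact Or.inl hwv
          · obtain ⟨c, hc, hwc⟩ := next_exists hTr (v := v) (w := w) (Ne.symm hwv)
            rcases hnb c hc with rfl | rfl | rfl
            · rw [mem_br] at hw; omega
            · exact Or.inr (Or.inl hwc)
            · exact Or.inr (Or.inr hwc)
      · intro e he
        rw [tedges_node, List.mem_cons, List.mem_append] at he
        rcases he with rfl | he | he
        · exact huv
        · exact ea e he
        · exact eb e he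
      · intro x hx y hy
        rw [labels_node, List.mem_cons, List.mem_append] at hx
        simp only [tedges_node, List.mem_cons, List.mem_append]
        rcases hx with rfl | hx | hx
        · rcases hnb y hy with rfl | rfl | rfl
          · right; left; rfl
          · left; right; left
            rw [LT.tedges_eq, la]; simp
          · left; right; right
            rw [LT.tedges_eq, lb]; simp
        · rcases fa x hx y hy with h | h
          · left; right; left; exact h
          · right; right; left; exact h
        · rcases fb x hx y hy with h | h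
          · left; right; right; exact h
          · right; right; right; exact h

end

lemma length_labels {X : Type} (s : LT X) : s.labels.length + 1 = 2 * s.shape.n := by
  induction s with
  | leaf n => simp [LT.labels, LT.shape, Bin.n]
  | node n pl pr l r ihl ihr =>
    simp only [LT.labels, LT.shape, Bin.n, List.length_cons, List.length_append]
    omega

/-- relabelling between two labelled trees of the same shape -/
lemma exists_relabel {X : Type} (s : LT X) (t : LT ℕ) (hst : t.shape = s.shape)
    (hnd : s.labels.Nodup) : ∃ g : X → ℕ, t.labels = s.labels.map g ∧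
      t.inner = s.inner.map (Prod.map g g) := by
  classical
  induction s generalizing t with
  | leaf n =>
    cases t with
    | leaf m => exact ⟨fun _ => m, by simp [LT.labels], by simp [LT.inner]⟩
    | node m pl pr l r => simp [LT.shape] at hst
  | node n pl pr l r ihl ihr =>
    cases t with
    | leaf m => simp [LT.shape] at hst
    | node m pl' pr' l' r' =>
      simp only [LT.shape, Bin.node.injEq] at hst
      rw [labels_node, List.nodup_cons, List.nodup_append] at hnd
      obtain ⟨hn, hl, hr, hd⟩ := hnd
      rw [List.mem_append, not_or] at hn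
      obtain ⟨gl, hgl, hil⟩ := ihl l' hst.1 hl
      obtain ⟨gr, hgr, hir⟩ := ihr r' hst.2 hr
      set g : X → ℕ := fun x => if x = n then m else if x ∈ l.labels then gl x else gr x with hg
      have g0 : g n = m := by simp [hg]
      have g1 : ∀ x ∈ l.labels, g x = gl x := by
        intro x hx
        have : x ≠ n := fun h => hn.1 (h ▸ hx)
        simp [hg, this, hx]
      have g2 : ∀ x ∈ r.labels, g x = gr x := by
        intro x hx
        have h1 : x ≠ n := fun h => hn.2 (h ▸ hx)
        have h2 : x ∉ l.labels := fun h => hd x h x hx rfl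
        simp [hg, h1, h2]
      have e1 : l'.labels = l.labels.map g := by
        rw [hgl]; exact (List.map_congr_left (fun x hx => g1 x hx)).symm
      have e2 : r'.labels = r.labels.map g := by
        rw [hgr]; exact (List.map_congr_left (fun x hx => g2 x hx)).symm
      have i1 : l'.inner = l.inner.map (Prod.map g g) := by
        rw [hil]
        refine (List.map_congr_left (fun e he => ?_)).symm
        obtain ⟨h1, h2⟩ := LT.mem_inner he
        simp only [Prod.map, g1 _ h1, g1 _ (LT.tlabels_sub _ h2)]
      have i2 : r'.inner = r.inner.map (Prod.map g g) := by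
        rw [hir]
        refine (List.map_congr_left (fun e he => ?_)).symm
        obtain ⟨h1, h2⟩ := LT.mem_inner he
        simp only [Prod.map, g2 _ h1, g2 _ (LT.tlabels_sub _ h2)]
      have a1 : l'.lab = g l.lab := by
        have := e1
        rw [LT.labels_eq, LT.labels_eq, List.map_cons] at this
        exact (List.cons.inj this).1
      have a2 : r'.lab = g r.lab := by
        have := e2
        rw [LT.labels_eq, LT.labels_eq, List.map_cons] at this
        exact (List.cons.inj this).1
      refine ⟨g, ?_, ?_⟩
      · rw [labels_node, labels_node, List.map_cons, List.map_append, g0, ← e1, ← e2]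
      · show l'.tedges m ++ r'.tedges m = (l.tedges n ++ r.tedges n).map _
        rw [LT.tedges_eq, LT.tedges_eq, LT.tedges_eq, LT.tedges_eq, List.map_append,
          List.map_cons, List.map_cons, ← i1, ← i2]
        simp only [Prod.map, g0, a1, a2]

/-! BLOCK B5 (a 1,3-tree is a planted binary tree) -/
theorem exists_bin_aux {V : Type} [Fintype V] (T : SimpleGraph V) (hT : IsOneThreeTree T) :
    ∃ b : Bin, 2 * b.n = Fintype.card V ∧ ∀ t : LT ℕ, t.shape = b → (0 :: t.labels).Nodup →
      ∃ e : V ≃ {x // x ∈ supp t}, ∀ x y, T.Adj x y ↔ TA t (e x) (e y) := by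
  classical
  have hTr := hT.1
  -- a leaf
  have : Nonempty V := hTr.connected.nonempty
  have : Nontrivial V := by
    obtain ⟨v⟩ := (inferInstance : Nonempty V)
    have : (T.neighborSet v).ncard ≠ 0 := by rcases hT.2 v with h | h <;> omega
    obtain ⟨w, hw⟩ := Set.nonempty_of_ncard_ne_zero this
    exact ⟨⟨v, w, SimpleGraph.Adj.ne hw⟩⟩
  obtain ⟨l, hl⟩ := hTr.exists_vert_degree_one_of_nontrivial
  obtain ⟨r, hr⟩ : ∃ r, T.neighborSet l = {r} := by
    rcases hT.2 l with h | h
    · exact Set.ncard_eq_one.mp h
    · exfalso
      rw [← SimpleGraph.card_neighborSet_eq_degree, ← Set.toFinset_card,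
        ← Set.ncard_eq_toFinset_card', h] at hl
      omega
  have hlr : T.Adj l r := by
    have : r ∈ T.neighborSet l := by rw [hr]; rfl
    exact this
  obtain ⟨s, slab, snd, smem, sadj, sadj'⟩ := exists_LT hT _ l r hlr le_rfl
  have smem' : ∀ w, w ∈ s.labels ↔ w ≠ l := by
    intro w
    rw [smem]
    constructor
    · rintro h rfl; exact br_not _ _ h
    · intro h
      obtain ⟨a, ha, hwa⟩ := next_exists hTr (v := l) (w := w) (Ne.symm h)
      have : a ∈ T.neighborSet l := ha
      rw [hr] at this
      rw [Set.mem_singleton_iff.mp this] at hwa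
      exact hwa
  have nd : (l :: s.labels).Nodup := by
    rw [List.nodup_cons]
    exact ⟨fun h => (smem' l).mp h rfl, snd⟩
  have all : ∀ w, w ∈ l :: s.labels := by
    intro w
    rw [List.mem_cons, smem']
    exact em _
  refine ⟨s.shape, ?_, ?_⟩
  · rw [← length_labels, ← List.length_cons (a := l), ← List.toFinset_card_of_nodup nd,
      ← Finset.card_univ]
    congr 1
    ext w
    simp only [List.mem_toFinset, Finset.mem_univ, all w]
  · intro t hts htn
    obtain ⟨g, hg1, hg2⟩ := exists_relabel s t hts snd
    set f : V → ℕ := fun x => if x = l then 0 else g x with hf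
    have f0 : f l = 0 := by simp [hf]
    have f1 : ∀ x ∈ s.labels, f x = g x := by
      intro x hx
      have := (smem' x).mp hx
      simp [hf, this]
    have hlab : t.labels = s.labels.map f := by
      rw [hg1]; exact (List.map_congr_left (fun x hx => f1 x hx)).symm
    have hinn : t.inner = s.inner.map (Prod.map f f) := by
      rw [hg2]
      refine (List.map_congr_left (fun e he => ?_)).symm
      obtain ⟨h1, h2⟩ := LT.mem_inner he
      simp only [Prod.map, f1 _ h1, f1 _ (LT.tlabels_sub _ h2)]
    have hlab' : t.lab = f s.lab := by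
      have := hlab
      rw [LT.labels_eq, LT.labels_eq, List.map_cons] at this
      exact (List.cons.inj this).1
    have hted : t.tedges 0 = (s.tedges l).map (Prod.map f f) := by
      rw [LT.tedges_eq, LT.tedges_eq, List.map_cons, ← hinn]
      simp only [Prod.map, f0, hlab']
    have hall : 0 :: t.labels = (l :: s.labels).map f := by
      rw [List.map_cons, f0, hlab]
    have finj : Function.Injective f := by
      intro x y hxy
      rw [hall] at htn
      exact List.inj_on_of_nodup_map htn (all x) (all y) hxy
    have fmem : ∀ x, f x ∈ supp t := by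
      intro x
      rw [supp, List.mem_toFinset, hall]
      exact List.mem_map_of_mem (all x)
    have fbij : Function.Bijective (fun x => (⟨f x, fmem x⟩ : {x // x ∈ supp t})) := by
      constructor
      · intro x y hxy
        exact finj (Subtype.ext_iff.mp hxy)
      · rintro ⟨n, hn⟩
        rw [supp, List.mem_toFinset, hall, List.mem_map] at hn
        obtain ⟨x, _, hx⟩ := hn
        exact ⟨x, Subtype.ext hx⟩
    refine ⟨Equiv.ofBijective _ fbij, ?_⟩
    intro x y
    have key : ∀ x y, (f x, f y) ∈ t.tedges 0 ↔ (x, y) ∈ s.tedges l := by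
      intro x y
      rw [hted, List.mem_map]
      constructor
      · rintro ⟨⟨a, b⟩, hab, he⟩
        simp only [Prod.map, Prod.mk.injEq] at he
        rw [← finj he.1, ← finj he.2]; exact hab
      · intro h; exact ⟨(x, y), h, rfl⟩
    show T.Adj x y ↔ ((f x, f y) ∈ t.tedges 0 ∨ (f y, f x) ∈ t.tedges 0)
    rw [key, key]
    constructor
    · intro h
      by_cases hx : x = l
      · have hy : y ≠ l := fun hy => h.ne (hx.trans hy.symm)
        exact (sadj' y ((smem' y).mpr hy) x h.symm).symm
      · exact sadj' x ((smem' x).mpr hx) y h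
    · rintro (h | h)
      · exact sadj _ h
      · exact (sadj _ h).symm

theorem exists_bin {V : Type*} [Fintype V] (T : SimpleGraph V) (hT : IsOneThreeTree T) :
    ∃ b : Bin, 2 * b.n = Fintype.card V ∧ ∀ t : LT ℕ, t.shape = b → (0 :: t.labels).Nodup →
      ∃ e : V ≃ {x // x ∈ supp t}, ∀ x y, T.Adj x y ↔ TA t (e x) (e y) := by
  classical
  let e0 : V ≃ Fin (Fintype.card V) := Fintype.equivFin V
  have hT' : IsOneThreeTree (T.comap e0.symm) := by
    refine ⟨(SimpleGraph.Iso.comap e0.symm T).isTree_iff.mpr hT.1, fun v => ?_⟩
    have e : (e0.symm '' ((T.comap e0.symm).neighborSet v)) = T.neighborSet (e0.symm v) := by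
      ext y
      simp only [Set.mem_image, SimpleGraph.mem_neighborSet, SimpleGraph.comap_adj]
      constructor
      · rintro ⟨x, hx, rfl⟩; exact hx
      · intro hy; exact ⟨e0 y, by simpa using hy, by simp⟩
    rw [← Set.ncard_image_of_injective _ e0.symm.injective, e]
    exact hT.2 _
  obtain ⟨b, hb, H⟩ := exists_bin_aux _ hT'
  refine ⟨b, by rw [hb, Fintype.card_fin], fun t ht hn => ?_⟩
  obtain ⟨e, he⟩ := H t ht hn
  refine ⟨e0.trans e, fun x y => ?_⟩
  have := he (e0 x) (e0 y)
  simpa using this

end Pool.Agent.Helper80.Hist
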