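import Pool.Agent.Helper80.Hist.Defs

/-!
Cyclic 4-edge-connectivity, degrees and girth of the graphs produced by the construction.
-/

namespace Pool.Agent.Helper80.Hist

open Finset

/-! BLOCK B6 (cyclic 4-edge-connectivity) -/
theorem cyc4_aux {A : Finset ℕ} {G : SimpleGraph ℕ} (hC : Core A G)
    (H : SimpleGraph {x // x ∈ A}) (F : Set (Sym2 {x // x ∈ A}))
    (hH : ∀ x y : {x // x ∈ A}, G.Adj x y → s(x, y) ∉ F → H.Adj x y)
    (hfin : F.Finite) (hcard : F.ncard ≤ 3) (u v : {x // x ∈ A}) (p : H.Walk u u) (q : H.Walk v v)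
    (hp : p.IsCycle) (hq : q.IsCycle) : H.Reachable u v := by
  classical
  by_contra hr
  let σ : ℕ → ℤ := fun n => if h : n ∈ A then (if H.Reachable u ⟨n, h⟩ then 1 else 0) else 0
  have hσ : ∀ x, σ x = 0 ∨ σ x = 1 := by
    intro x
    simp only [σ]
    split_ifs <;> simp
  have hσ1 : ∀ x : {x // x ∈ A}, σ x = 1 ↔ H.Reachable u x := by
    rintro ⟨x, hx⟩
    simp [σ, hx]
  have hσ0 : ∀ x : {x // x ∈ A}, σ x = 0 ↔ ¬ H.Reachable u x := by
    rintro ⟨x, hx⟩
    simp [σ, hx]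
  have nb : ∀ (a : {x // x ∈ A}) (c : H.Walk a a), c.IsCycle → ∃ b, H.Adj a b := by
    intro a c hc
    cases c with
    | nil => exact absurd rfl hc.ne_nil
    | cons h _ => exact ⟨_, h⟩
  obtain ⟨u', hu'⟩ := nb u p hp
  obtain ⟨v', hv'⟩ := nb v q hq
  have two : ∀ (τ : ℕ → ℤ), (∀ x, 0 ≤ τ x) → ∀ a b : {x // x ∈ A}, a ≠ b → τ a = 1 → τ b = 1 →
      2 ≤ ∑ x ∈ A, τ x := by
    intro τ hτ a b hab ha hb
    have hab' : (a : ℕ) ≠ b := fun h => hab (Subtype.ext h)
    have : ∑ x ∈ ({(a : ℕ), (b : ℕ)} : Finset ℕ), τ x ≤ ∑ x ∈ A, τ x := by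
      apply Finset.sum_le_sum_of_subset_of_nonneg
      · intro x hx
        simp only [Finset.mem_insert, Finset.mem_singleton] at hx
        rcases hx with rfl | rfl
        · exact a.2
        · exact b.2
      · intro x _ _; exact hτ x
    rw [Finset.sum_pair hab', ha, hb] at this
    linarith
  have h1 : 2 ≤ ∑ x ∈ A, σ x := by
    refine two σ (fun x => by rcases hσ x with h | h <;> simp [h]) u u' hu'.ne ?_ ?_
    · exact (hσ1 u).mpr (SimpleGraph.Reachable.refl u)
    · exact (hσ1 u').mpr hu'.reachable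
  have h2 : 2 ≤ ∑ x ∈ A, (1 - σ x) := by
    refine two (fun x => 1 - σ x) (fun x => by rcases hσ x with h | h <;> simp [h]) v v' hv'.ne ?_ ?_
    · show 1 - σ v = 1
      rw [(hσ0 v).mpr hr]; rfl
    · show 1 - σ v' = 1
      rw [(hσ0 v').mpr (fun h => hr (h.trans hv'.symm.reachable))]; rfl
  have h4 := hC.cut σ hσ h1 h2
  -- the cut has at most three edges
  set S : Finset (ℕ × ℕ) := (A ×ˢ A).filter (fun e => G.Adj e.1 e.2 ∧ σ e.1 = 1 ∧ σ e.2 = 0)
    with hS
  have h3 : cutv A G σ = (S.card : ℤ) := by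
    rw [cutv, ← Finset.sum_product', Finset.card_filter, Nat.cast_sum]
    refine Finset.sum_congr rfl fun e _ => ?_
    simp only [aa]
    rcases hσ e.1 with ha | ha <;> rcases hσ e.2 with hb | hb <;> by_cases hg : G.Adj e.1 e.2 <;>
      simp [ha, hb, hg]
  have h5 : S.card ≤ hfin.toFinset.card := by
    refine Finset.card_le_card_of_injOn
      (fun e => if h : e.1 ∈ A ∧ e.2 ∈ A then s(⟨e.1, h.1⟩, ⟨e.2, h.2⟩) else s(u, u)) ?_ ?_
    · rintro ⟨x, y⟩ he
      simp only [hS, Finset.coe_filter, Finset.mem_product, Set.mem_ofPred_eq] at he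
      obtain ⟨⟨hx, hy⟩, hg, hx1, hy0⟩ := he
      simp only [hx, hy, and_self, dite_true, Set.Finite.coe_toFinset]
      by_contra hnF
      have hadj : H.Adj ⟨x, hx⟩ ⟨y, hy⟩ := hH _ _ hg hnF
      have r1 := (hσ1 ⟨x, hx⟩).mp hx1
      exact (hσ0 ⟨y, hy⟩).mp hy0 (r1.trans hadj.reachable)
    · rintro ⟨x, y⟩ he ⟨x', y'⟩ he' heq
      simp only [hS, Finset.coe_filter, Finset.mem_product, Set.mem_ofPred_eq] at he he'
      obtain ⟨⟨hx, hy⟩, hg, hx1, hy0⟩ := he
      obtain ⟨⟨hx', hy'⟩, hg', hx1', hy0'⟩ := he'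
      simp only [hx, hy, hx', hy', and_self, dite_true, Sym2.eq_iff, Subtype.mk.injEq] at heq
      rcases heq with ⟨a, b⟩ | ⟨a, b⟩
      · rw [a, b]
      · subst a; rw [hx1] at hy0'; norm_num at hy0'
  have h6 : hfin.toFinset.card ≤ 3 := by
    rw [← Set.ncard_eq_toFinset_card F hfin]; exact hcard
  rw [h3] at h4
  have : S.card ≤ 3 := h5.trans h6
  omega

theorem cyc4 {A : Finset ℕ} {G : SimpleGraph ℕ} (hC : Core A G) :
    CyclicallyFourEdgeConnected (G.comap (Subtype.val : {x // x ∈ A} → ℕ)) := by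
  intro F _ hfin hcard u v p q hp hq
  refine cyc4_aux hC _ F (fun x y hg hn => ?_) hfin hcard u v p q hp hq
  rw [SimpleGraph.deleteEdges_adj]
  exact ⟨hg, hn⟩

/-! BLOCK B7 (degrees and girth) -/
theorem cubic_of_core {A : Finset ℕ} {G : SimpleGraph ℕ} (hC : Core A G) (v : {x // x ∈ A}) :
    ((G.comap (Subtype.val : {x // x ∈ A} → ℕ)).neighborSet v).ncard = 3 := by
  classical
  rw [← Set.ncard_image_of_injective _ Subtype.val_injective]
  have e : (Subtype.val '' ((G.comap (Subtype.val : {x // x ∈ A} → ℕ)).neighborSet v)) =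
      ((A.filter (fun y => G.Adj v y) : Finset ℕ) : Set ℕ) := by
    ext y
    simp only [Set.mem_image, SimpleGraph.mem_neighborSet, SimpleGraph.comap_adj,
      Finset.coe_filter, Set.mem_ofPred_eq]
    constructor
    · rintro ⟨x, hx, rfl⟩; exact ⟨x.2, hx⟩
    · rintro ⟨hy, h⟩; exact ⟨⟨y, hy⟩, h, rfl⟩
  rw [e, Set.ncard_coe_finset]
  have := hC.cubic v v.2
  simp only [aa] at this
  rw [Finset.sum_ite, Finset.sum_const_zero, add_zero, Finset.sum_const, nsmul_eq_mul,
    mul_one] at this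
  exact_mod_cast this

theorem girth5 {V : Type*} (G : SimpleGraph V)
    (h3 : ∀ x y z, G.Adj x y → G.Adj y z → G.Adj x z → False)
    (h4 : ∀ x y z w, G.Adj x y → G.Adj y z → G.Adj z w → G.Adj w x → x = z ∨ y = w) :
    5 ≤ G.egirth := by
  rw [SimpleGraph.le_egirth]
  intro a w hw
  have hl := hw.three_le_length
  by_contra hlt
  have hlt' : w.length < 5 := by
    have := not_le.mp hlt
    exact_mod_cast this
  have hcase : w.length = 3 ∨ w.length = 4 := by omega
  have hnd := hw.support_nodup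
  match w, hcase, hnd with
  | .cons (v := b) h1 (.cons (v := c) h2 (.cons h3' .nil)), _, _ =>
    exact h3 _ _ _ h1 h2 h3'.symm
  | .cons (v := b) h1 (.cons (v := c) h2 (.cons (v := d) h3' (.cons h4' .nil))), _, hnd =>
    rcases h4 _ _ _ _ h1 h2 h3' h4' with h | h
    · subst h
      simp at hnd
    · subst h
      simp at hnd
  | .nil, hc, _ => simp at hc
  | .cons _ .nil, hc, _ => simp at hc
  | .cons _ (.cons _ .nil), hc, _ => simp at hc
  | .cons _ (.cons _ (.cons _ (.cons _ (.cons _ _)))), hc, _ => simp at hc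

end Pool.Agent.Helper80.Hist
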